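import Mathlib

/-! Project GL, a cardinality lemma for part MB. -/

set_option autoImplicit false

open Cardinal

namespace Pool.Agent.L7h36.GL

theorem x0_card {L : Type} [CompleteLattice L] (b w : L) (Z G : Set L) (κ : Cardinal.{0})
    (hκ : ℵ₀ ≤ κ) (hG : #G < κ) (hZ : ∀ z ∈ Z, ∀ z' ∈ Z, z ≠ z' → w ≤ z ⊔ z') :
    #{z // z ∈ Z ∧ ∃ G₀ : Set L, G₀ ⊆ G ∧ G₀.Finite ∧ z ≤ b ⊔ sSup G₀ ∧ ¬ w ≤ b ⊔ sSup G₀} < κ := by
  classical
  have hch : ∀ z : {z // z ∈ Z ∧ ∃ G₀ : Set L, G₀ ⊆ G ∧ G₀.Finite ∧ z ≤ b ⊔ sSup G₀ ∧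
      ¬ w ≤ b ⊔ sSup G₀}, ∃ f : Finset G, z.1 ≤ b ⊔ sSup ((↑) '' (f : Set G)) ∧
        ¬ w ≤ b ⊔ sSup ((↑) '' (f : Set G) : Set L) := by
    rintro ⟨z, -, G₀, hG₀, hfin, h1, h2⟩
    have hpre : (((↑) : G → L) ⁻¹' G₀).Finite := hfin.preimage Subtype.val_injective.injOn
    refine ⟨hpre.toFinset, ?_⟩
    have he : (((↑) : G → L) '' (hpre.toFinset : Set G)) = G₀ := by
      rw [Set.Finite.coe_toFinset, Subtype.image_preimage_coe, Set.inter_eq_right.2 hG₀]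
    rw [he]
    exact ⟨h1, h2⟩
  choose f hf1 hf2 using hch
  have hinj : Function.Injective f := by
    intro z z' h
    by_contra hne
    have hne' : z.1 ≠ z'.1 := fun h' => hne (Subtype.ext h')
    refine hf2 z (le_trans (hZ z.1 z.2.1 z'.1 z'.2.1 hne') (sup_le (hf1 z) ?_))
    rw [h]
    exact hf1 z'
  refine lt_of_le_of_lt (mk_le_of_injective hinj) ?_
  rcases finite_or_infinite G with hfin | hinf
  · exact lt_of_lt_of_le (mk_lt_aleph0_iff.2 inferInstance) hκ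
  · rw [mk_finset_of_infinite]
    exact hG

end Pool.Agent.L7h36.GL
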